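import Pool.Agent.H31.CN.T3

/-!
# Module HQ: the singular factor
-/

set_option autoImplicit false

open MeasureTheory Set Filter
open scoped Real

namespace Pool.Agent.H60.CN

open Pool.Agent.H31.CN
open ArithmeticFunction (moebius zeta)

/-- the arithmetic function -/
noncomputable def Fq (q : ℕ) : ArithmeticFunction ℝ :=
  ⟨fun n => if Nat.Coprime n q then mr n * 2 ^ n.primeFactors.card else 0, by
    simp [mr]⟩

theorem Fq_apply (q n : ℕ) :
    Fq q n = if Nat.Coprime n q then mr n * 2 ^ n.primeFactors.card else 0 := rfl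

theorem Fq_mult (q : ℕ) : (Fq q).IsMultiplicative := by
  refine ⟨?_, fun {m n} h => ?_⟩
  · rw [Fq_apply, if_pos (Nat.coprime_one_left q)]
    simp [mr]
  · rw [Fq_apply, Fq_apply, Fq_apply]
    by_cases h1 : Nat.Coprime m q
    · by_cases h2 : Nat.Coprime n q
      · rw [if_pos h1, if_pos h2, if_pos (Nat.Coprime.mul_left h1 h2)]
        have h3 : mr (m * n) = mr m * mr n := by
          unfold mr
          rw [ArithmeticFunction.isMultiplicative_moebius.map_mul_of_coprime h]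
          push_cast
          rfl
        rw [h3, h.primeFactors_mul, Finset.card_union_of_disjoint h.disjoint_primeFactors,
          pow_add]
        ring
      · rw [if_neg h2, mul_zero, if_neg]
        exact fun h3 => h2 (Nat.Coprime.coprime_mul_left h3)
    · rw [if_neg h1, zero_mul, if_neg]
      exact fun h3 => h1 (Nat.Coprime.coprime_mul_right h3)

/-- the value at a prime, plus one -/
noncomputable def dq (q p : ℕ) : ℝ := if p ∣ q then 1 else -1

theorem Fq_prime {q p : ℕ} (hp : p.Prime) : Fq q p = dq q p - 1 := by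
  rw [Fq_apply]
  unfold dq
  by_cases h : p ∣ q
  · rw [if_neg (fun h1 => (Nat.Prime.coprime_iff_not_dvd hp).1 h1 h), if_pos h, sub_self]
  · rw [if_pos ((Nat.Prime.coprime_iff_not_dvd hp).2 h), if_neg h]
    unfold mr
    rw [ArithmeticFunction.moebius_apply_prime hp, Nat.Prime.primeFactors hp]
    norm_num

theorem Fq_pow {q p : ℕ} (hp : p.Prime) (j : ℕ) : Fq q (p ^ (j + 2)) = 0 := by
  rw [Fq_apply]
  have : mr (p ^ (j + 2)) = 0 := by
    unfold mr
    rw [ArithmeticFunction.moebius_apply_prime_pow hp (by omega), if_neg (by omega)]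
    simp
  rw [this, zero_mul, ite_self]

/-- the convolution with the constant function -/
noncomputable def Gq (q : ℕ) : ArithmeticFunction ℝ := (zeta : ArithmeticFunction ℝ) * Fq q

/-- the function `h` -/
noncomputable def hq (q : ℕ) : ArithmeticFunction ℝ := (zeta : ArithmeticFunction ℝ) * Gq q

theorem Gq_pow {q p : ℕ} (hp : p.Prime) (j : ℕ) :
    Gq q (p ^ j) = if j = 0 then 1 else dq q p := by
  have h1 : ∀ j, Gq q (p ^ j) = ∑ i ∈ Finset.range (j + 1), Fq q (p ^ i) := by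
    intro j
    unfold Gq
    rw [ArithmeticFunction.coe_zeta_mul_apply, Nat.sum_divisors_prime_pow hp]
  rw [h1]
  induction j with
  | zero =>
    rw [if_pos rfl, Finset.sum_range_one, pow_zero]
    exact (Fq_mult q).1
  | succ j ih =>
    rw [Finset.sum_range_succ, ih, if_neg (Nat.succ_ne_zero j)]
    cases j with
    | zero =>
      rw [if_pos rfl, zero_add, pow_one, Fq_prime hp]
      ring
    | succ j =>
      rw [if_neg (Nat.succ_ne_zero j), Fq_pow hp, add_zero]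

theorem hq_pow {q p : ℕ} (hp : p.Prime) (j : ℕ) : hq q (p ^ j) = 1 + j * dq q p := by
  have h1 : ∀ j, hq q (p ^ j) = ∑ i ∈ Finset.range (j + 1), Gq q (p ^ i) := by
    intro j
    unfold hq
    rw [ArithmeticFunction.coe_zeta_mul_apply, Nat.sum_divisors_prime_pow hp]
  rw [h1]
  induction j with
  | zero =>
    rw [Finset.sum_range_one, Gq_pow hp]
    simp
  | succ j ih =>
    rw [Finset.sum_range_succ, ih, Gq_pow hp, if_neg (Nat.succ_ne_zero j)]
    push_cast
    ring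

theorem hq_mult (q : ℕ) : (hq q).IsMultiplicative :=
  ArithmeticFunction.isMultiplicative_zeta.natCast.mul
    (ArithmeticFunction.isMultiplicative_zeta.natCast.mul (Fq_mult q))

theorem conv (q n : ℕ) : Fq q n = ∑ x ∈ n.divisorsAntidiagonal, m2 x.1 * hq q x.2 := by
  have h1 : Fq q = ((moebius : ArithmeticFunction ℝ) * (moebius : ArithmeticFunction ℝ)) *
      hq q := by
    unfold hq Gq
    have h2 : (moebius : ArithmeticFunction ℝ) * (zeta : ArithmeticFunction ℝ) = 1 :=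
      ArithmeticFunction.coe_moebius_mul_coe_zeta
    calc Fq q = ((moebius : ArithmeticFunction ℝ) * (zeta : ArithmeticFunction ℝ)) *
          ((moebius : ArithmeticFunction ℝ) * (zeta : ArithmeticFunction ℝ)) * Fq q := by
          rw [h2]; ring
      _ = _ := by ring
  conv_lhs => rw [h1]
  rw [ArithmeticFunction.mul_apply]
  refine Finset.sum_congr rfl fun x _ => ?_
  congr 1

/-! ### Local sums -/

theorem loc_sum (d x : ℝ) (h0 : 0 ≤ x) (h1 : x < 1) :
    HasSum (fun n : ℕ => (1 + n * d) * x ^ n) (1 / (1 - x) + d * (x / (1 - x) ^ 2)) := by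
  have h2 := hasSum_geometric_of_lt_one h0 h1
  have h3 := (hasSum_coe_mul_geometric_of_norm_lt_one (r := x)
    (by rw [Real.norm_of_nonneg h0]; exact h1)).mul_left d
  have h4 := h2.add h3
  rw [one_div]
  refine h4.congr_fun ?_ |> id
  intro n
  ring

theorem loc_abs (d x : ℝ) (h0 : 0 ≤ x) (h1 : x < 1) (hd : d = 1 ∨ d = -1) :
    HasSum (fun n : ℕ => |1 + n * d| * x ^ n)
      (if d = 1 then 1 / (1 - x) ^ 2 else 1 + x ^ 2 / (1 - x) ^ 2) := by
  have h1x : 1 - x ≠ 0 := by linarith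
  rcases hd with rfl | rfl
  · rw [if_pos rfl]
    have h2 := loc_sum 1 x h0 h1
    have e : 1 / (1 - x) + 1 * (x / (1 - x) ^ 2) = 1 / (1 - x) ^ 2 := by
      field_simp
      ring
    rw [e] at h2
    refine h2.congr_fun ?_ |> id
    intro n
    rw [abs_of_nonneg (by positivity)]
  · rw [if_neg (by norm_num)]
    have h2 := ((loc_sum (-1) x h0 h1).neg).add (hasSum_ite_eq (0 : ℕ) (2 : ℝ))
    have e : -(1 / (1 - x) + -1 * (x / (1 - x) ^ 2)) + 2 = 1 + x ^ 2 / (1 - x) ^ 2 := by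
      field_simp
      ring
    rw [e] at h2
    refine h2.congr_fun ?_ |> id
    intro n
    rcases Nat.eq_zero_or_pos n with rfl | hn
    · simp
      norm_num
    · rw [if_neg (by omega)]
      have h3 : (1 : ℝ) ≤ n := by exact_mod_cast hn
      rw [abs_of_nonpos (by linarith)]
      ring

/-! ### The function with exponent `3/4` -/

/-- the absolute value with the weight -/
noncomputable def gq (q n : ℕ) : ℝ := |hq q n| * (n : ℝ) ^ (-(3 / 4) : ℝ)

theorem gq_nonneg (q n : ℕ) : 0 ≤ gq q n := by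
  unfold gq
  positivity

theorem gq_zero (q : ℕ) : gq q 0 = 0 := by
  unfold gq
  simp

theorem gq_one (q : ℕ) : gq q 1 = 1 := by
  unfold gq
  rw [(hq_mult q).1]
  simp

theorem gq_mul (q : ℕ) {m n : ℕ} (h : Nat.Coprime m n) : gq q (m * n) = gq q m * gq q n := by
  unfold gq
  rw [(hq_mult q).2 h, abs_mul, Nat.cast_mul, Real.mul_rpow (Nat.cast_nonneg _)
    (Nat.cast_nonneg _)]
  ring

theorem dq_cases (q p : ℕ) : dq q p = 1 ∨ dq q p = -1 := by
  unfold dq
  split_ifs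
  · exact Or.inl rfl
  · exact Or.inr rfl

theorem x_bound {p : ℕ} (hp : p.Prime) : 0 < (p : ℝ) ^ (-(3 / 4) : ℝ) ∧
    (p : ℝ) ^ (-(3 / 4) : ℝ) ≤ 3 / 5 := by
  have hp2 : (2 : ℝ) ≤ p := by exact_mod_cast hp.two_le
  refine ⟨Real.rpow_pos_of_pos (by linarith) _, ?_⟩
  have h1 : (p : ℝ) ^ (-(3 / 4) : ℝ) ≤ (2 : ℝ) ^ (-(3 / 4) : ℝ) :=
    Real.rpow_le_rpow_of_nonpos (by norm_num) hp2 (by norm_num)
  refine h1.trans ?_
  have h2 : (2 : ℝ) ^ (-(3 / 4) : ℝ) = ((2 : ℝ) ^ (-3 : ℝ)) ^ ((4 : ℝ)⁻¹) := by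
    rw [← Real.rpow_mul (by norm_num)]
    norm_num
  have h3 : (3 / 5 : ℝ) = ((3 / 5 : ℝ) ^ (4 : ℝ)) ^ ((4 : ℝ)⁻¹) := by
    rw [← Real.rpow_mul (by norm_num)]
    norm_num
  rw [h2, h3]
  refine Real.rpow_le_rpow (by positivity) ?_ (by norm_num)
  rw [Real.rpow_neg (by norm_num)]
  norm_num

theorem gq_pow {q p : ℕ} (hp : p.Prime) (n : ℕ) :
    gq q (p ^ n) = |1 + n * dq q p| * ((p : ℝ) ^ (-(3 / 4) : ℝ)) ^ n := by
  unfold gq
  rw [hq_pow hp, Nat.cast_pow, ← Real.rpow_natCast, ← Real.rpow_natCast, ← Real.rpow_mul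
    (Nat.cast_nonneg _), ← Real.rpow_mul (Nat.cast_nonneg _), mul_comm (n : ℝ) (-(3 / 4) : ℝ)]

theorem gq_loc {q p : ℕ} (hp : p.Prime) : HasSum (fun n : ℕ => gq q (p ^ n))
    (if dq q p = 1 then 1 / (1 - (p : ℝ) ^ (-(3 / 4) : ℝ)) ^ 2 else
      1 + ((p : ℝ) ^ (-(3 / 4) : ℝ)) ^ 2 / (1 - (p : ℝ) ^ (-(3 / 4) : ℝ)) ^ 2) := by
  obtain ⟨h1, h2⟩ := x_bound hp
  have h3 := loc_abs (dq q p) _ h1.le (by linarith) (dq_cases q p)
  refine h3.congr_fun ?_ |> id
  intro n
  exact gq_pow hp n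

/-- the bound for the local sum -/
theorem loc_bound {q p : ℕ} (hp : p.Prime) : (if dq q p = 1 then
      1 / (1 - (p : ℝ) ^ (-(3 / 4) : ℝ)) ^ 2 else
      1 + ((p : ℝ) ^ (-(3 / 4) : ℝ)) ^ 2 / (1 - (p : ℝ) ^ (-(3 / 4) : ℝ)) ^ 2) ≤
    (if p ∣ q then 1 + 30 / Real.sqrt p else 1) *
      Real.exp (25 / 4 * (p : ℝ) ^ (-(3 / 2) : ℝ)) := by
  obtain ⟨h1, h2⟩ := x_bound hp
  have hp1 : (1 : ℝ) ≤ p := by exact_mod_cast hp.one_lt.le
  set x := (p : ℝ) ^ (-(3 / 4) : ℝ) with hx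
  have h3 : (4 / 25 : ℝ) ≤ (1 - x) ^ 2 := by nlinarith
  have h4 : 0 < (1 - x) ^ 2 := by linarith
  have hs : 0 < Real.sqrt p := Real.sqrt_pos.2 (by linarith)
  have hxs : x ≤ 1 / Real.sqrt p := by
    have e : 1 / Real.sqrt p = (p : ℝ) ^ (-(1 / 2) : ℝ) := by
      rw [Real.rpow_neg (by linarith), ← Real.sqrt_eq_rpow, one_div]
    rw [e]
    exact Real.rpow_le_rpow_of_exponent_le hp1 (by norm_num)
  have hexp : 1 ≤ Real.exp (25 / 4 * (p : ℝ) ^ (-(3 / 2) : ℝ)) :=
    Real.one_le_exp (by positivity)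
  have hx2 : x ^ 2 = (p : ℝ) ^ (-(3 / 2) : ℝ) := by
    rw [hx, ← Real.rpow_natCast, ← Real.rpow_mul (by linarith)]
    norm_num
  by_cases h : p ∣ q
  · have hd : dq q p = 1 := if_pos h
    rw [if_pos hd, if_pos h]
    have h5 : 1 / (1 - x) ^ 2 ≤ 1 + 30 / Real.sqrt p := by
      rw [div_le_iff₀ h4]
      have h6 : 30 / Real.sqrt p = 30 * (1 / Real.sqrt p) := by ring
      rw [h6]
      have h7 : 30 * x ≤ 30 * (1 / Real.sqrt p) := by linarith
      nlinarith [mul_nonneg h1.le h4.le]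
    calc _ ≤ _ := h5
      _ = (1 + 30 / Real.sqrt p) * 1 := by ring
      _ ≤ _ := mul_le_mul_of_nonneg_left hexp (by positivity)
  · have hd : ¬ dq q p = 1 := by
      unfold dq
      rw [if_neg h]
      norm_num
    rw [if_neg hd, if_neg h, one_mul]
    have h5 : x ^ 2 / (1 - x) ^ 2 ≤ 25 / 4 * x ^ 2 := by
      rw [div_le_iff₀ h4]
      nlinarith [sq_nonneg x]
    rw [← hx2]
    have h6 := Real.add_one_le_exp (25 / 4 * x ^ 2)
    linarith

/-- the constant -/
noncomputable def Cq : ℝ := Real.exp (25 / 4 * ∑' n : ℕ, (n : ℝ) ^ (-(3 / 2) : ℝ))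

theorem prod_bound {q : ℕ} (hq0 : q ≠ 0) (N : ℕ) :
    ∏ p ∈ N.primesBelow, (if dq q p = 1 then
      1 / (1 - (p : ℝ) ^ (-(3 / 4) : ℝ)) ^ 2 else
      1 + ((p : ℝ) ^ (-(3 / 4) : ℝ)) ^ 2 / (1 - (p : ℝ) ^ (-(3 / 4) : ℝ)) ^ 2) ≤
      Cq * Ef q := by
  have h1 : ∏ p ∈ N.primesBelow, (if dq q p = 1 then
      1 / (1 - (p : ℝ) ^ (-(3 / 4) : ℝ)) ^ 2 else
      1 + ((p : ℝ) ^ (-(3 / 4) : ℝ)) ^ 2 / (1 - (p : ℝ) ^ (-(3 / 4) : ℝ)) ^ 2) ≤
      ∏ p ∈ N.primesBelow, ((if p ∣ q then 1 + 30 / Real.sqrt p else 1) *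
        Real.exp (25 / 4 * (p : ℝ) ^ (-(3 / 2) : ℝ))) := by
    refine Finset.prod_le_prod (fun p hp => ?_) fun p hp =>
      loc_bound (Nat.prime_of_mem_primesBelow hp)
    split_ifs <;> positivity
  refine h1.trans ?_
  rw [Finset.prod_mul_distrib, ← Real.exp_sum, mul_comm]
  have hsum : Summable fun n : ℕ => (n : ℝ) ^ (-(3 / 2) : ℝ) :=
    Real.summable_nat_rpow.2 (by norm_num)
  refine mul_le_mul ?_ ?_ (Finset.prod_nonneg fun p _ => by split_ifs <;> positivity)
    (Real.exp_pos _).le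
  · unfold Cq
    rw [Real.exp_le_exp, ← Finset.mul_sum]
    refine mul_le_mul_of_nonneg_left ?_ (by norm_num)
    exact hsum.sum_le_tsum _ fun n _ => by positivity
  · rw [← Finset.prod_filter]
    unfold Ef
    have hsub : (N.primesBelow.filter fun p => p ∣ q) ⊆ q.primeFactors := by
      intro p hp
      rw [Finset.mem_filter] at hp
      exact Nat.mem_primeFactors.2 ⟨Nat.prime_of_mem_primesBelow hp.1, hp.2, hq0⟩
    rw [← Finset.prod_sdiff hsub]
    have h2 : (1 : ℝ) ≤ ∏ p ∈ q.primeFactors \ N.primesBelow.filter fun p => p ∣ q,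
        (1 + 30 / Real.sqrt p) := by
      have h3 : ∏ p ∈ q.primeFactors \ N.primesBelow.filter fun p => p ∣ q, (1 : ℝ) ≤
          ∏ p ∈ q.primeFactors \ N.primesBelow.filter fun p => p ∣ q,
            (1 + 30 / Real.sqrt p) := by
        refine Finset.prod_le_prod (fun p _ => zero_le_one) fun p _ => ?_
        have : 0 ≤ 30 / Real.sqrt p := by positivity
        linarith
      rwa [Finset.prod_const_one] at h3
    refine le_mul_of_one_le_left (Finset.prod_nonneg fun p _ => by positivity) h2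

theorem sum_bound {q : ℕ} (hq0 : q ≠ 0) (N : ℕ) :
    ∑ b ∈ Finset.range N, gq q b ≤ Cq * Ef q := by
  obtain ⟨-, h1⟩ := EulerProduct.summable_and_hasSum_smoothNumbers_prod_primesBelow_tsum
    (f := gq q) (gq_one q) (fun {m n} h => gq_mul q h) (fun {p} hp => by
      have h2 := (gq_loc (q := q) hp).summable
      refine h2.congr fun n => ?_
      rw [Real.norm_of_nonneg (gq_nonneg q _)]) N
  have h2 : ∏ p ∈ N.primesBelow, ∑' n : ℕ, gq q (p ^ n) ≤ Cq * Ef q := by
    rw [Finset.prod_congr rfl fun p hp =>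
      (gq_loc (q := q) (Nat.prime_of_mem_primesBelow hp)).tsum_eq]
    exact prod_bound hq0 N
  refine le_trans ?_ h2
  have h3 := (hasSum_subtype_iff_indicator (f := gq q)
    (s := (N.smoothNumbers : Set ℕ))).1 h1
  have h4 : ∑ b ∈ Finset.range N, gq q b =
      ∑ b ∈ Finset.range N, (N.smoothNumbers).indicator (gq q) b := by
    refine Finset.sum_congr rfl fun b hb => ?_
    rcases Nat.eq_zero_or_pos b with rfl | hb0
    · rw [gq_zero, Set.indicator_apply]
      split_ifs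
      · exact (gq_zero q).symm
      · rfl
    · rw [Set.indicator_of_mem]
      exact Nat.mem_smoothNumbers_of_lt hb0 (Finset.mem_range.1 hb)
  rw [h4]
  exact sum_le_hasSum _ (fun b _ => Set.indicator_nonneg (fun b _ => gq_nonneg q b) b) h3

theorem gq_summable {q : ℕ} (hq0 : q ≠ 0) : Summable (gq q) :=
  summable_of_sum_range_le (gq_nonneg q) (sum_bound hq0)

theorem gq_tsum {q : ℕ} (hq0 : q ≠ 0) : ∑' b, gq q b ≤ Cq * Ef q :=
  Real.tsum_le_of_sum_range_le (gq_nonneg q) (sum_bound hq0)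

/-! ### The Euler product -/

/-- the local factor -/
noncomputable def lf (q p : ℕ) : ℝ := if p ∣ q then (1 - 1 / (p : ℝ))⁻¹ ^ 2 else
    (1 - 2 / (p : ℝ)) * (1 - 1 / (p : ℝ))⁻¹ ^ 2

theorem rec_le {n : ℕ} : (n : ℝ)⁻¹ ≤ (n : ℝ) ^ (-(3 / 4) : ℝ) := by
  rcases Nat.eq_zero_or_pos n with rfl | hn
  · simp
  · have h1 : (1 : ℝ) ≤ n := by exact_mod_cast hn
    rw [← Real.rpow_neg_one]
    exact Real.rpow_le_rpow_of_exponent_le h1 (by norm_num)

theorem hq_sum {q : ℕ} (hq0 : q ≠ 0) : Summable fun b : ℕ => ‖hq q b / b‖ := by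
  refine Summable.of_nonneg_of_le (fun _ => norm_nonneg _) (fun b => ?_) (gq_summable hq0)
  rw [norm_div, Real.norm_eq_abs, Real.norm_of_nonneg (Nat.cast_nonneg b), div_eq_mul_inv]
  exact mul_le_mul_of_nonneg_left rec_le (abs_nonneg _)

theorem hq_loc {q p : ℕ} (hp : p.Prime) : ∑' e : ℕ, hq q (p ^ e) / ((p ^ e : ℕ) : ℝ) =
    lf q p := by
  have hp2 : (2 : ℝ) ≤ p := by exact_mod_cast hp.two_le
  have hz0 : (0 : ℝ) ≤ 1 / p := by positivity
  have hz1 : 1 / (p : ℝ) < 1 := by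
    rw [div_lt_one (by linarith)]
    linarith
  have h1 := loc_sum (dq q p) (1 / p) hz0 hz1
  have h2 : HasSum (fun e : ℕ => hq q (p ^ e) / ((p ^ e : ℕ) : ℝ))
      (1 / (1 - 1 / (p : ℝ)) + dq q p * (1 / p / (1 - 1 / (p : ℝ)) ^ 2)) := by
    refine h1.congr_fun ?_ |> id
    intro e
    rw [hq_pow hp, Nat.cast_pow, div_pow, one_pow]
    ring
  rw [h2.tsum_eq]
  have h1z : 1 - 1 / (p : ℝ) ≠ 0 := by linarith
  unfold lf dq
  by_cases h : p ∣ q
  · rw [if_pos h, if_pos h]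
    set z := 1 / (p : ℝ) with hz
    field_simp
    ring
  · rw [if_neg h, if_neg h]
    have e : 2 / (p : ℝ) = 2 * (1 / p) := by ring
    rw [e]
    set z := 1 / (p : ℝ) with hz
    field_simp
    ring

theorem lf_hasProd {q : ℕ} (hq0 : q ≠ 0) :
    HasProd (fun p : Nat.Primes => lf q p) (∑' b : ℕ, hq q b / b) := by
  have h1 := EulerProduct.eulerProduct_hasProd (f := fun b : ℕ => hq q b / b)
    (by simp [(hq_mult q).1]) (fun {m n} h => by
      show hq q (m * n) / ((m * n : ℕ) : ℝ) = _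
      rw [(hq_mult q).2 h]
      push_cast
      rw [mul_div_mul_comm]) (hq_sum hq0) (by simp)
  refine h1.congr_fun ?_ |> id
  intro p
  exact (hq_loc p.2).symm

theorem Hq_eq {q : ℕ} (hq0 : q ≠ 0) : Hq q = ∑' b : ℕ, hq q b / b :=
  (lf_hasProd hq0).tprod_eq

theorem lf_hasProd' {q : ℕ} (hq0 : q ≠ 0) :
    HasProd (fun p : Nat.Primes => lf q p) (Hq q) := by
  rw [Hq_eq hq0]
  exact lf_hasProd hq0

theorem lf_pos {q : ℕ} (h2 : 2 ∣ q) {p : ℕ} (hp : p.Prime) : 0 < lf q p := by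
  have hp2 : (2 : ℝ) ≤ p := by exact_mod_cast hp.two_le
  have hz1 : 1 / (p : ℝ) < 1 := by
    rw [div_lt_one (by linarith)]
    linarith
  have h1z : 0 < 1 - 1 / (p : ℝ) := by linarith
  unfold lf
  split_ifs with h
  · positivity
  · have h3 : p ≠ 2 := by
      rintro rfl
      exact h h2
    have h4 : (3 : ℝ) ≤ p := by
      have := hp.two_le
      exact_mod_cast (by omega : 3 ≤ p)
    have h5 : 2 / (p : ℝ) < 1 := by
      rw [div_lt_one (by linarith)]
      linarith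
    have h6 : 0 < 1 - 2 / (p : ℝ) := by linarith
    positivity

theorem Hq_pos {q : ℕ} (hq0 : q ≠ 0) (h2 : 2 ∣ q) : 0 < Hq q := by
  have hsum : Summable fun p : Nat.Primes => lf q p - 1 := by
    have h1 : Summable fun n : ℕ => 4 * (1 / (n : ℝ) ^ 2) :=
      (Real.summable_one_div_nat_pow.2 (by norm_num)).mul_left 4
    have h3 : Summable fun p : Nat.Primes => 4 * (1 / ((p : ℕ) : ℝ) ^ 2) :=
      h1.comp_injective Subtype.val_injective
    refine Summable.of_norm_bounded_eventually h3 ?_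
    have hfin : {p : Nat.Primes | (p : ℕ) ∣ q}.Finite := by
      have h4 : {p : Nat.Primes | (p : ℕ) ∣ q} ⊆
          Subtype.val ⁻¹' (↑(q.divisors) : Set ℕ) := by
        intro p hp
        exact Nat.mem_divisors.2 ⟨hp, hq0⟩
      exact ((q.divisors.finite_toSet).preimage Subtype.val_injective.injOn).subset h4
    refine Filter.mem_of_superset (Set.Finite.compl_mem_cofinite hfin) ?_
    intro p hp
    have hp' : ¬ (p : ℕ) ∣ q := hp
    have hp3 : (p : ℕ) ≠ 2 := fun h => hp' (by rw [h]; exact h2)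
    have hp4 : (3 : ℝ) ≤ ((p : ℕ) : ℝ) := by
      have := p.2.two_le
      exact_mod_cast (by omega : 3 ≤ (p : ℕ))
    show ‖lf q p - 1‖ ≤ 4 * (1 / ((p : ℕ) : ℝ) ^ 2)
    have hz1 : 1 / ((p : ℕ) : ℝ) ≤ 1 / 3 := one_div_le_one_div_of_le (by norm_num) hp4
    have hz0 : 0 < 1 / ((p : ℕ) : ℝ) := by positivity
    have e1 : lf q p - 1 = -((1 / ((p : ℕ) : ℝ)) ^ 2 / (1 - 1 / ((p : ℕ) : ℝ)) ^ 2) := by
      unfold lf
      rw [if_neg hp']
      have e : 2 / ((p : ℕ) : ℝ) = 2 * (1 / ((p : ℕ) : ℝ)) := by ring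
      rw [e]
      have h1z : 1 - 1 / ((p : ℕ) : ℝ) ≠ 0 := by linarith
      set z := 1 / ((p : ℕ) : ℝ) with hz
      field_simp
      ring
    rw [e1, norm_neg, Real.norm_of_nonneg (by positivity)]
    have e2 : 4 * (1 / ((p : ℕ) : ℝ) ^ 2) = 4 * (1 / ((p : ℕ) : ℝ)) ^ 2 := by
      rw [div_pow, one_pow]
    rw [e2]
    set z := 1 / ((p : ℕ) : ℝ) with hz
    have h5 : (1 / 4 : ℝ) ≤ (1 - z) ^ 2 := by nlinarith
    rw [div_le_iff₀ (by linarith)]
    nlinarith [sq_nonneg z]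
  have hlog : Summable fun p : Nat.Primes => Real.log (lf q p) := by
    have h1 := Real.summable_log_one_add_of_summable hsum
    refine h1.congr fun p => ?_
    rw [add_sub_cancel]
  have h3 := Real.rexp_tsum_eq_tprod (f := fun p : Nat.Primes => lf q p)
    (fun p => lf_pos h2 p.2) hlog
  have h4 : ∏' p : Nat.Primes, lf q p = Hq q := rfl
  rw [← h4, ← h3]
  exact Real.exp_pos _

theorem Hq_mul {q : ℕ} (hq0 : q ≠ 0) {p : ℕ} (hp : p.Prime) (hpq : ¬ p ∣ q) :
    Hq (q * p) * (1 - 2 / p) = Hq q := by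
  classical
  have h1 := lf_hasProd' (mul_ne_zero hq0 hp.ne_zero)
  have h2 := hasProd_ite_eq (⟨p, hp⟩ : Nat.Primes) (1 - 2 / (p : ℝ))
  have h3 := h1.mul h2
  have h4 : HasProd (fun r : Nat.Primes => lf q r) (Hq (q * p) * (1 - 2 / p)) := by
    refine h3.congr_fun ?_ |> id
    intro r
    by_cases hr : r = (⟨p, hp⟩ : Nat.Primes)
    · subst hr
      rw [if_pos rfl]
      show lf q p = lf (q * p) p * (1 - 2 / (p : ℝ))
      unfold lf
      rw [if_neg hpq, if_pos (dvd_mul_left p q)]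
      ring
    · have e : (if r = (⟨p, hp⟩ : Nat.Primes) then (1 - 2 / (p : ℝ)) else 1) = 1 :=
        if_neg hr
      refine Eq.trans ?_ (congrArg (fun t => lf (q * p) r * t) e).symm
      show lf q r = lf (q * p) r * 1
      rw [mul_one]
      unfold lf
      have h5 : (r : ℕ) ∣ q * p ↔ (r : ℕ) ∣ q := by
        constructor
        · intro h
          rcases (Nat.Prime.dvd_mul r.2).1 h with h | h
          · exact h
          · exact absurd (Subtype.ext ((Nat.prime_dvd_prime_iff_eq r.2 hp).1 h)) hr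
        · exact fun h => Dvd.dvd.mul_right h p
      by_cases h6 : (r : ℕ) ∣ q
      · rw [if_pos h6, if_pos (h5.2 h6)]
      · rw [if_neg h6, if_neg (fun h => h6 (h5.1 h))]
  exact h4.unique (lf_hasProd' hq0)

theorem pf_HQ : T_HQ := by
  refine ⟨Cq, Real.exp_pos _, fun q hq1 h2 => ?_⟩
  have hq0 : q ≠ 0 := by omega
  refine ⟨Hq_pos hq0 h2, ?_, fun p hp hpq => Hq_mul hq0 hp hpq, fun n => hq q n, ?_,
    gq_summable hq0, gq_tsum hq0, by simp, (Hq_eq hq0).symm⟩
  · rw [Hq_eq hq0]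
    refine le_trans ?_ (gq_tsum hq0)
    refine (hq_sum hq0).of_norm.tsum_le_tsum (fun b => ?_) (gq_summable hq0)
    refine (le_abs_self _).trans ?_
    rw [abs_div, abs_of_nonneg (Nat.cast_nonneg b : (0 : ℝ) ≤ b), div_eq_mul_inv]
    exact mul_le_mul_of_nonneg_left rec_le (abs_nonneg _)
  · intro n _
    exact conv q n

end Pool.Agent.H60.CN
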