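import Pool.Agent.H31.CN.T3
import Pool.Agent.H19.MS.MER

/-!
# Module MER: Mertens sums
-/

set_option autoImplicit false

open Set Filter

namespace Pool.Agent.H60.CN

open Pool.Agent.H31.CN
open Pool.Agent.H19.MS (tp sum_tp_bdd)
open Pool.Agent.H44.MS (ic_pos ic_neg)

/-- Abel summation for sums over primes of a Lipschitz function of the logarithm -/
theorem prime_abel : ∃ C : ℝ, 0 < C ∧ ∀ (y A L : ℝ) (g G : ℝ → ℝ), 1 ≤ y → 0 ≤ A → 0 ≤ L →
    (∀ t ∈ Icc 0 (Real.log y), HasDerivAt G (g t) t) →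
    (∀ s ∈ Icc 0 (Real.log y), ∀ t ∈ Icc 0 (Real.log y), |g s - g t| ≤ L * |s - t|) →
    (∀ t ∈ Icc 0 (Real.log y), |g t| ≤ A) →
    |∑ p ∈ (Finset.Icc 1 ⌊y⌋₊).filter Nat.Prime, Real.log p / p * g (Real.log p) -
      (G (Real.log y) - G 0)| ≤ C * (A + L * Real.log y) := by
  obtain ⟨C, hC, hC'⟩ := sum_tp_bdd
  refine ⟨C + 1, by linarith, fun y A L g G hy hA hL hG hg hgA => ?_⟩
  have hU : 0 ≤ Real.log y := Real.log_nonneg hy
  set U := Real.log y with hUd
  set Y := ⌊y⌋₊ with hYd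
  have hY1 : 1 ≤ Y := Nat.one_le_floor_iff y |>.2 hy
  have hYy : (Y : ℝ) ≤ y := Nat.floor_le (by linarith)
  have hyY : y < Y + 1 := Nat.lt_floor_add_one y
  have hlog : ∀ n : ℕ, 1 ≤ n → n ≤ Y → Real.log n ∈ Icc 0 U := by
    intro n hn hnY
    have h1 : (1 : ℝ) ≤ n := by exact_mod_cast hn
    have h2 : (n : ℝ) ≤ y := (by exact_mod_cast hnY : (n : ℝ) ≤ Y).trans hYy
    exact ⟨Real.log_nonneg h1, Real.log_le_log (by linarith) h2⟩
  have hstep : ∀ n : ℕ, 1 ≤ n → 0 ≤ Real.log ((n + 1 : ℕ) : ℝ) - Real.log n ∧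
      Real.log ((n + 1 : ℕ) : ℝ) - Real.log n ≤ 1 := by
    intro n hn
    have h1 : (1 : ℝ) ≤ n := by exact_mod_cast hn
    constructor
    · rw [sub_nonneg]
      exact Real.log_le_log (by linarith) (by push_cast; linarith)
    · rw [← Real.log_div (by positivity) (by linarith)]
      have h2 := Real.log_le_sub_one_of_pos
        (show (0 : ℝ) < ((n + 1 : ℕ) : ℝ) / n by positivity)
      have h3 : ((n + 1 : ℕ) : ℝ) / n - 1 ≤ 1 := by
        push_cast
        rw [sub_le_iff_le_add, div_le_iff₀ (by linarith)]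
        linarith
      linarith
  -- the derivative estimate
  have hmv : ∀ u ∈ Icc 0 U, ∀ v ∈ Icc 0 U, u ≤ v →
      |(v - u) * g v - (G v - G u)| ≤ L * (v - u) * (v - u) := by
    intro u hu v hv huv
    have h1 := Convex.norm_image_sub_le_of_norm_hasDerivWithin_le
      (f := fun t => G t - g v * t) (f' := fun t => g t - g v) (s := Icc u v)
      (C := L * (v - u)) (x := u) (y := v)
      (fun t ht => by
        have h2 := (hG t ⟨hu.1.trans ht.1, ht.2.trans hv.2⟩).sub
          ((hasDerivAt_id t).const_mul (g v))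
        rw [mul_one] at h2
        exact h2.hasDerivWithinAt)
      (fun t ht => by
        rw [Real.norm_eq_abs]
        refine (hg t ⟨hu.1.trans ht.1, ht.2.trans hv.2⟩ v hv).trans ?_
        refine mul_le_mul_of_nonneg_left ?_ hL
        rw [abs_sub_comm, abs_of_nonneg (by linarith [ht.2])]
        linarith [ht.1])
      (convex_Icc u v) ⟨le_rfl, huv⟩ ⟨huv, le_rfl⟩
    rw [Real.norm_eq_abs, Real.norm_eq_abs, abs_of_nonneg (by linarith : 0 ≤ v - u)] at h1
    have e : (v - u) * g v - (G v - G u) = -(G v - g v * v - (G u - g v * u)) := by ring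
    rw [e, abs_neg]
    exact h1
  have hend : |G U - G (Real.log Y)| ≤ A := by
    have hlY := hlog Y hY1 le_rfl
    have h1 := Convex.norm_image_sub_le_of_norm_hasDerivWithin_le
      (f := G) (f' := g) (s := Icc (Real.log Y) U) (C := A) (x := Real.log Y) (y := U)
      (fun t ht => (hG t ⟨hlY.1.trans ht.1, ht.2⟩).hasDerivWithinAt)
      (fun t ht => by
        rw [Real.norm_eq_abs]
        exact hgA t ⟨hlY.1.trans ht.1, ht.2⟩)
      (convex_Icc _ _) ⟨le_rfl, hlY.2⟩ ⟨hlY.2, le_rfl⟩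
    rw [Real.norm_eq_abs, Real.norm_eq_abs, abs_of_nonneg (sub_nonneg.2 hlY.2)] at h1
    refine h1.trans ?_
    have h2 : U - Real.log Y ≤ 1 := by
      have h3 := (hstep Y hY1).2
      have h4 : U ≤ Real.log ((Y + 1 : ℕ) : ℝ) :=
        Real.log_le_log (by linarith) (by push_cast; exact hyY.le)
      linarith
    nlinarith [hlY.2]
  -- the two sums
  have hS1 : ∀ n : ℕ, 1 ≤ n → n ≤ Y →
      |∑ k ∈ Finset.Icc 1 n, (tp k - (Real.log k - Real.log ((k - 1 : ℕ) : ℝ))) *
        g (Real.log k) - (∑ k ∈ Finset.Icc 1 n, tp k - Real.log n) * g (Real.log n)| ≤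
        C * L * Real.log n := by
    intro n hn
    induction n, hn using Nat.le_induction with
    | base =>
      intro _
      simp
    | succ n hn ih =>
      intro hnY
      have h1 := ih (by omega)
      have h2 := hC' n hn
      have h3 := hg _ (hlog n hn (by omega)) _ (hlog (n + 1) (by omega) hnY)
      obtain ⟨h4, -⟩ := hstep n hn
      rw [abs_sub_comm (Real.log n), abs_of_nonneg h4] at h3
      rw [Finset.sum_Icc_succ_top (by omega), Finset.sum_Icc_succ_top (by omega),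
        Nat.add_sub_cancel]
      have e : ∑ k ∈ Finset.Icc 1 n, (tp k - (Real.log k - Real.log ((k - 1 : ℕ) : ℝ))) *
          g (Real.log k) + (tp (n + 1) - (Real.log ((n + 1 : ℕ) : ℝ) - Real.log n)) *
          g (Real.log ((n + 1 : ℕ) : ℝ)) - (∑ k ∈ Finset.Icc 1 n, tp k + tp (n + 1) -
          Real.log ((n + 1 : ℕ) : ℝ)) * g (Real.log ((n + 1 : ℕ) : ℝ)) =
          (∑ k ∈ Finset.Icc 1 n, (tp k - (Real.log k - Real.log ((k - 1 : ℕ) : ℝ))) *
          g (Real.log k) - (∑ k ∈ Finset.Icc 1 n, tp k - Real.log n) * g (Real.log n)) +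
          (∑ k ∈ Finset.Icc 1 n, tp k - Real.log n) *
            (g (Real.log n) - g (Real.log ((n + 1 : ℕ) : ℝ))) := by ring
      rw [e]
      refine (abs_add_le _ _).trans ?_
      have h5 : |(∑ k ∈ Finset.Icc 1 n, tp k - Real.log n) *
          (g (Real.log n) - g (Real.log ((n + 1 : ℕ) : ℝ)))| ≤
          C * (L * (Real.log ((n + 1 : ℕ) : ℝ) - Real.log n)) := by
        rw [abs_mul]
        exact mul_le_mul h2 h3 (abs_nonneg _) hC.le
      calc _ ≤ C * L * Real.log n + C * (L * (Real.log ((n + 1 : ℕ) : ℝ) - Real.log n)) :=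
            add_le_add h1 h5
        _ = C * L * Real.log ((n + 1 : ℕ) : ℝ) := by ring
  have hS2 : ∀ n : ℕ, 1 ≤ n → n ≤ Y →
      |∑ k ∈ Finset.Icc 1 n, (Real.log k - Real.log ((k - 1 : ℕ) : ℝ)) * g (Real.log k) -
        (G (Real.log n) - G 0)| ≤ L * Real.log n := by
    intro n hn
    induction n, hn using Nat.le_induction with
    | base =>
      intro _
      simp
    | succ n hn ih =>
      intro hnY
      have h1 := ih (by omega)
      obtain ⟨h4, h5⟩ := hstep n hn
      have h3 := hmv _ (hlog n hn (by omega)) _ (hlog (n + 1) (by omega) hnY) (by linarith)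
      rw [Finset.sum_Icc_succ_top (by omega), Nat.add_sub_cancel]
      have e : ∑ k ∈ Finset.Icc 1 n, (Real.log k - Real.log ((k - 1 : ℕ) : ℝ)) *
          g (Real.log k) + (Real.log ((n + 1 : ℕ) : ℝ) - Real.log n) *
          g (Real.log ((n + 1 : ℕ) : ℝ)) - (G (Real.log ((n + 1 : ℕ) : ℝ)) - G 0) =
          (∑ k ∈ Finset.Icc 1 n, (Real.log k - Real.log ((k - 1 : ℕ) : ℝ)) * g (Real.log k) -
            (G (Real.log n) - G 0)) +
          ((Real.log ((n + 1 : ℕ) : ℝ) - Real.log n) * g (Real.log ((n + 1 : ℕ) : ℝ)) -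
            (G (Real.log ((n + 1 : ℕ) : ℝ)) - G (Real.log n))) := by ring
      rw [e]
      refine (abs_add_le _ _).trans ?_
      have h6 : L * (Real.log ((n + 1 : ℕ) : ℝ) - Real.log n) *
          (Real.log ((n + 1 : ℕ) : ℝ) - Real.log n) ≤
          L * (Real.log ((n + 1 : ℕ) : ℝ) - Real.log n) * 1 :=
        mul_le_mul_of_nonneg_left h5 (mul_nonneg hL h4)
      linarith
  have h1 := hS1 Y hY1 le_rfl
  have h2 := hS2 Y hY1 le_rfl
  have h3 := hC' Y hY1
  have hlY := hlog Y hY1 le_rfl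
  have h4 : |(∑ k ∈ Finset.Icc 1 Y, tp k - Real.log Y) * g (Real.log Y)| ≤ C * A := by
    rw [abs_mul]
    exact mul_le_mul h3 (hgA _ hlY) (abs_nonneg _) hC.le
  have e1 : ∑ p ∈ (Finset.Icc 1 Y).filter Nat.Prime, Real.log p / p * g (Real.log p) =
      ∑ k ∈ Finset.Icc 1 Y, tp k * g (Real.log k) := by
    rw [Finset.sum_filter]
    refine Finset.sum_congr rfl fun k _ => ?_
    unfold tp
    split_ifs with hk
    · rw [ic_pos hk, one_mul]
    · rw [ic_neg hk, zero_mul, zero_div, zero_mul]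
  have e2 : ∑ k ∈ Finset.Icc 1 Y, tp k * g (Real.log k) =
      ∑ k ∈ Finset.Icc 1 Y, (tp k - (Real.log k - Real.log ((k - 1 : ℕ) : ℝ))) *
        g (Real.log k) +
      ∑ k ∈ Finset.Icc 1 Y, (Real.log k - Real.log ((k - 1 : ℕ) : ℝ)) * g (Real.log k) := by
    rw [← Finset.sum_add_distrib]
    exact Finset.sum_congr rfl fun k _ => by ring
  rw [e1, e2]
  have h5 : C * L * Real.log Y ≤ C * L * U :=
    mul_le_mul_of_nonneg_left hlY.2 (mul_nonneg hC.le hL)
  have h6 : L * Real.log Y ≤ L * U := mul_le_mul_of_nonneg_left hlY.2 hL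
  rw [abs_le] at h1 h2 h4 hend ⊢
  constructor
  · nlinarith [h1.1, h1.2, h2.1, h2.2, h4.1, h4.2, hend.1, hend.2]
  · nlinarith [h1.1, h1.2, h2.1, h2.2, h4.1, h4.2, hend.1, hend.2]

theorem pf_MER : T_MER := by
  intro j
  obtain ⟨C, hC, hC'⟩ := prime_abel
  refine ⟨C * (2 + j), by positivity, fun y hy => ?_⟩
  have hU : 0 ≤ Real.log y := Real.log_nonneg hy
  set U := Real.log y with hUd
  have hder : ∀ t : ℝ, HasDerivAt (fun t : ℝ => t * (U - t) ^ j)
      (1 * (U - t) ^ j + t * (j * (U - t) ^ (j - 1) * (-1))) t := by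
    intro t
    exact (hasDerivAt_id t).mul (((hasDerivAt_id t).const_sub U).pow j)
  have hbd : ∀ t ∈ Icc 0 U, ∀ i : ℕ, |(U - t) ^ i| ≤ (1 + U) ^ i := by
    intro t ht i
    rw [abs_pow]
    refine pow_le_pow_left₀ (abs_nonneg _) ?_ i
    rw [abs_of_nonneg (by linarith [ht.2])]
    linarith [ht.1]
  have hL : ∀ s ∈ Icc 0 U, ∀ t ∈ Icc 0 U,
      |s * (U - s) ^ j - t * (U - t) ^ j| ≤ ((1 + j) * (1 + U) ^ j) * |s - t| := by
    intro s hs t ht
    have h1 := Convex.norm_image_sub_le_of_norm_hasDerivWithin_le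
      (f := fun t : ℝ => t * (U - t) ^ j)
      (f' := fun t => 1 * (U - t) ^ j + t * (j * (U - t) ^ (j - 1) * (-1)))
      (s := Icc 0 U) (C := (1 + j) * (1 + U) ^ j) (x := t) (y := s)
      (fun t _ => (hder t).hasDerivWithinAt)
      (fun t ht => by
        rw [Real.norm_eq_abs]
        refine (abs_add_le _ _).trans ?_
        rw [one_mul, abs_mul, abs_mul, abs_mul, abs_neg, abs_one, mul_one, Nat.abs_cast,
          abs_of_nonneg ht.1]
        have h2 := hbd t ht j
        have h3 : t * (j * |(U - t) ^ (j - 1)|) ≤ j * (1 + U) ^ j := by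
          rcases Nat.eq_zero_or_pos j with rfl | hj
          · simp
          · have h4 := hbd t ht (j - 1)
            have h5 : (1 + U) ^ j = (1 + U) * (1 + U) ^ (j - 1) := by
              rw [← pow_succ', Nat.sub_add_cancel hj]
            rw [h5]
            have h6 : t * |(U - t) ^ (j - 1)| ≤ (1 + U) * (1 + U) ^ (j - 1) :=
              mul_le_mul (by linarith [ht.2]) h4 (abs_nonneg _) (by linarith)
            calc t * (j * |(U - t) ^ (j - 1)|) = j * (t * |(U - t) ^ (j - 1)|) := by ring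
              _ ≤ _ := mul_le_mul_of_nonneg_left h6 (Nat.cast_nonneg _)
        linarith)
      (convex_Icc 0 U) ht hs
    rwa [Real.norm_eq_abs, Real.norm_eq_abs] at h1
  have hG : ∀ t : ℝ, HasDerivAt (fun t : ℝ => -(t * (U - t) ^ (j + 1) / (j + 1)) -
      (U - t) ^ (j + 2) / ((j + 1) * (j + 2))) (t * (U - t) ^ j) t := by
    intro t
    have h1 := ((((hasDerivAt_id t).mul (((hasDerivAt_id t).const_sub U).pow (j + 1))).div_const
      ((j : ℝ) + 1)).neg).sub ((((hasDerivAt_id t).const_sub U).pow (j + 2)).div_const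
      (((j : ℝ) + 1) * (j + 2)))
    refine h1.congr_deriv ?_
    simp only [id, Nat.add_sub_cancel, show j + 2 - 1 = j + 1 by omega, Pi.pow_apply]
    push_cast
    field_simp
    ring
  have key := hC' y ((1 + U) ^ (j + 1)) ((1 + j) * (1 + U) ^ j) (fun t => t * (U - t) ^ j)
    (fun t => -(t * (U - t) ^ (j + 1) / (j + 1)) - (U - t) ^ (j + 2) / ((j + 1) * (j + 2)))
    hy (by positivity) (by positivity) (fun t _ => hG t) hL (fun t ht => by
      rw [abs_mul, abs_of_nonneg ht.1, pow_succ']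
      exact mul_le_mul (by linarith [ht.2]) (hbd t ht j) (abs_nonneg _) (by linarith))
  have e1 : ∑ p ∈ (Finset.Icc 1 ⌊y⌋₊).filter Nat.Prime,
      Real.log p ^ 2 / p * Real.log (y / p) ^ j =
      ∑ p ∈ (Finset.Icc 1 ⌊y⌋₊).filter Nat.Prime,
        Real.log p / p * (Real.log p * (U - Real.log p) ^ j) := by
    refine Finset.sum_congr rfl fun p hp => ?_
    have hp0 : (p : ℝ) ≠ 0 := by
      have := (Finset.mem_filter.1 hp).2.ne_zero
      exact_mod_cast this
    rw [Real.log_div (by linarith) hp0]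
    ring
  have e2 : (-(U * (U - U) ^ (j + 1) / ((j : ℝ) + 1)) -
      (U - U) ^ (j + 2) / (((j : ℝ) + 1) * (j + 2))) -
      (-((0 : ℝ) * (U - 0) ^ (j + 1) / ((j : ℝ) + 1)) -
      (U - 0) ^ (j + 2) / (((j : ℝ) + 1) * (j + 2))) = U ^ (j + 2) / ((j + 1) * (j + 2)) := by
    rw [sub_self, zero_pow (by omega), zero_pow (by omega)]
    ring
  rw [e1]
  beta_reduce at key
  rw [← hUd, e2] at key
  refine key.trans ?_
  have h7 : (1 + j) * (1 + U) ^ j * U ≤ (1 + j) * (1 + U) ^ (j + 1) := by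
    rw [pow_succ, ← mul_assoc]
    exact mul_le_mul_of_nonneg_left (by linarith) (by positivity)
  calc C * ((1 + U) ^ (j + 1) + (1 + j) * (1 + U) ^ j * U) ≤
      C * ((1 + U) ^ (j + 1) + (1 + j) * (1 + U) ^ (j + 1)) :=
        mul_le_mul_of_nonneg_left (by linarith) hC.le
    _ = C * (2 + j) * (1 + U) ^ (j + 1) := by ring

end Pool.Agent.H60.CN
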