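import Pool.Agent.H31.CN.T3

/-!
# Module VS: the smoothed sum with the sum of squares of logarithms
-/

set_option autoImplicit false

open Set Filter

namespace Pool.Agent.H60.CN

open Pool.Agent.H31.CN

/-! ### Arithmetic of `p m` -/

theorem mr_mul_dvd {p m : ℕ} (hp : p.Prime) (h : p ∣ m) : mr (p * m) = 0 := by
  unfold mr
  rw [ArithmeticFunction.moebius_eq_zero_of_not_squarefree]
  · simp
  · intro h1
    have h2 : p * p ∣ p * m := mul_dvd_mul_left p h
    exact hp.one_lt.ne' (Nat.isUnit_iff.1 (h1 p h2))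

theorem mr_mul_ndvd {p m : ℕ} (hp : p.Prime) (h : ¬ p ∣ m) : mr (p * m) = -mr m := by
  unfold mr
  rw [ArithmeticFunction.isMultiplicative_moebius.map_mul_of_coprime
    ((Nat.Prime.coprime_iff_not_dvd hp).2 h), ArithmeticFunction.moebius_apply_prime hp]
  push_cast
  ring

theorem om_mul {p m : ℕ} (hp : p.Prime) (h : ¬ p ∣ m) :
    (p * m).primeFactors.card = m.primeFactors.card + 1 := by
  have hc := (Nat.Prime.coprime_iff_not_dvd hp).2 h
  rw [hc.primeFactors_mul, Finset.card_union_of_disjoint hc.disjoint_primeFactors,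
    Nat.Prime.primeFactors hp, Finset.card_singleton, add_comm]

/-- the term for `p m` -/
theorem term_eq {p q m : ℕ} (hp : p.Prime) (hm : 1 ≤ m) {y : ℝ} (hy : 0 < y) (k : ℕ) :
    (if Nat.Coprime (p * m) q then mr (p * m) * 2 ^ (p * m).primeFactors.card /
      ((p * m : ℕ) : ℝ) * Real.log p ^ 2 * Real.log (y / ((p * m : ℕ) : ℝ)) ^ k else 0) =
    -((if p ∣ q then 0 else 2 * (Real.log p ^ 2 / p)) *
      if Nat.Coprime m (q * p) then mr m * 2 ^ m.primeFactors.card / m *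
        Real.log (y / p / m) ^ k else 0) := by
  have hp0 : (p : ℝ) ≠ 0 := by exact_mod_cast hp.ne_zero
  have hm0 : (m : ℝ) ≠ 0 := by exact_mod_cast (by omega : m ≠ 0)
  by_cases hpq : p ∣ q
  · rw [if_pos hpq, zero_mul, neg_zero, if_neg]
    intro h
    exact (Nat.Prime.coprime_iff_not_dvd hp).1 (Nat.Coprime.coprime_mul_right h) hpq
  · rw [if_neg hpq]
    by_cases hpm : p ∣ m
    · have h1 : ¬ Nat.Coprime m (q * p) := fun h =>
        (Nat.Prime.coprime_iff_not_dvd hp).1 (Nat.Coprime.coprime_mul_left_right h).symm hpm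
      rw [if_neg h1, mr_mul_dvd hp hpm]
      simp
    · have hpq' := (Nat.Prime.coprime_iff_not_dvd hp).2 hpq
      have hpm' := (Nat.Prime.coprime_iff_not_dvd hp).2 hpm
      have h1 : Nat.Coprime (p * m) q ↔ Nat.Coprime m q :=
        ⟨fun h => Nat.Coprime.coprime_mul_left h, fun h => Nat.Coprime.mul_left hpq' h⟩
      have h2 : Nat.Coprime m (q * p) ↔ Nat.Coprime m q :=
        ⟨fun h => Nat.Coprime.coprime_mul_right_right h,
          fun h => Nat.Coprime.mul_right h hpm'.symm⟩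
      have hmain : mr (p * m) * 2 ^ (p * m).primeFactors.card / ((p * m : ℕ) : ℝ) *
          Real.log p ^ 2 * Real.log (y / ((p * m : ℕ) : ℝ)) ^ k =
          -(2 * (Real.log p ^ 2 / p) * (mr m * 2 ^ m.primeFactors.card / m *
            Real.log (y / p / m) ^ k)) := by
        rw [mr_mul_ndvd hp hpm, om_mul hp hpm, Nat.cast_mul, div_div]
        field_simp
        ring
      by_cases h3 : Nat.Coprime m q
      · rw [if_pos (h1.2 h3), if_pos (h2.2 h3)]
        exact hmain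
      · rw [if_neg (fun h => h3 (h1.1 h)), if_neg (fun h => h3 (h2.1 h))]
        simp

/-- the identity -/
theorem sum_ve (q k : ℕ) {y : ℝ} (hy : 1 ≤ y) :
    ∑ n ∈ (Finset.Icc 1 ⌊y⌋₊).filter (fun n => Nat.Coprime n q),
        mr n * 2 ^ n.primeFactors.card / n * ve n * Real.log (y / n) ^ k =
      -∑ p ∈ (Finset.Icc 1 ⌊y⌋₊).filter Nat.Prime,
        (if p ∣ q then 0 else 2 * (Real.log p ^ 2 / p)) * Bk k (q * p) (y / p) := by
  classical
  set Y := ⌊y⌋₊ with hY
  have e1 : ∑ n ∈ (Finset.Icc 1 Y).filter (fun n => Nat.Coprime n q),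
        mr n * 2 ^ n.primeFactors.card / n * ve n * Real.log (y / n) ^ k =
      ∑ n ∈ Finset.Icc 1 Y, ∑ p ∈ (Finset.Icc 1 Y).filter Nat.Prime,
        if p ∣ n then (if Nat.Coprime n q then mr n * 2 ^ n.primeFactors.card / n *
          Real.log p ^ 2 * Real.log (y / n) ^ k else 0) else 0 := by
    rw [Finset.sum_filter]
    refine Finset.sum_congr rfl fun n hn => ?_
    have hn1 := Finset.mem_Icc.1 hn
    have h1 : n.primeFactors = ((Finset.Icc 1 Y).filter Nat.Prime).filter (· ∣ n) := by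
      ext p
      rw [Nat.mem_primeFactors, Finset.mem_filter, Finset.mem_filter, Finset.mem_Icc]
      constructor
      · rintro ⟨h2, h3, h4⟩
        exact ⟨⟨⟨h2.one_lt.le, (Nat.le_of_dvd (by omega) h3).trans hn1.2⟩, h2⟩, h3⟩
      · rintro ⟨⟨-, h2⟩, h3⟩
        exact ⟨h2, h3, by omega⟩
    rw [← Finset.sum_filter, ← h1]
    by_cases hc : Nat.Coprime n q
    · rw [if_pos hc]
      unfold ve
      rw [Finset.mul_sum, Finset.sum_mul]
      refine Finset.sum_congr rfl fun p _ => ?_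
      rw [if_pos hc]
    · rw [if_neg hc]
      exact (Finset.sum_eq_zero fun p _ => if_neg hc).symm
  rw [e1, Finset.sum_comm, ← Finset.sum_neg_distrib]
  refine Finset.sum_congr rfl fun p hp => ?_
  have hpp := (Finset.mem_filter.1 hp).2
  have hp0 : 0 < p := hpp.pos
  have e2 : (Finset.Icc 1 Y).filter (p ∣ ·) = (Finset.Icc 1 (Y / p)).image (p * ·) := by
    ext n
    rw [Finset.mem_filter, Finset.mem_image, Finset.mem_Icc]
    constructor
    · rintro ⟨⟨h1, h2⟩, m, rfl⟩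
      refine ⟨m, Finset.mem_Icc.2 ⟨?_, ?_⟩, rfl⟩
      · rcases Nat.eq_zero_or_pos m with rfl | h
        · simp at h1
        · exact h
      · rw [Nat.le_div_iff_mul_le hp0, mul_comm]
        exact h2
    · rintro ⟨m, hm, rfl⟩
      rw [Finset.mem_Icc, Nat.le_div_iff_mul_le hp0, mul_comm m] at hm
      exact ⟨⟨Nat.mul_pos hp0 hm.1, hm.2⟩, dvd_mul_right p m⟩
  rw [← Finset.sum_filter, e2, Finset.sum_image fun a _ b _ h =>
    Nat.eq_of_mul_eq_mul_left hp0 h]
  unfold Bk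
  rw [Nat.floor_div_natCast, ← hY, Finset.sum_filter, Finset.mul_sum, ← Finset.sum_neg_distrib]
  refine Finset.sum_congr rfl fun m hm => ?_
  exact term_eq hpp (Finset.mem_Icc.1 hm).1 (by linarith) k

/-! ### Estimates -/

theorem log_sq_le {p : ℕ} : Real.log p ^ 2 ≤ 16 * Real.sqrt p := by
  rcases Nat.eq_zero_or_pos p with rfl | hp
  · simp
  have hp1 : (1 : ℝ) ≤ p := by exact_mod_cast hp
  have h1 : 0 ≤ Real.log p := Real.log_nonneg hp1
  have h2 : Real.log p ≤ (p : ℝ) ^ ((4 : ℝ)⁻¹) / (4 : ℝ)⁻¹ :=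
    Real.log_le_rpow_div (by linarith) (by norm_num)
  have h3 : ((p : ℝ) ^ ((4 : ℝ)⁻¹)) ^ 2 = Real.sqrt p := by
    rw [← Real.rpow_natCast, ← Real.rpow_mul (by linarith), Real.sqrt_eq_rpow]
    norm_num
  have h4 : Real.log p ≤ 4 * (p : ℝ) ^ ((4 : ℝ)⁻¹) := by
    rw [div_inv_eq_mul, mul_comm] at h2
    exact h2
  calc Real.log p ^ 2 ≤ (4 * (p : ℝ) ^ ((4 : ℝ)⁻¹)) ^ 2 := pow_le_pow_left₀ h1 h4 2
    _ = 16 * ((p : ℝ) ^ ((4 : ℝ)⁻¹)) ^ 2 := by ring
    _ = _ := by rw [h3]

theorem Ef_one_le (q : ℕ) : 1 ≤ Ef q := by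
  unfold Ef
  have h : ∏ p ∈ q.primeFactors, (1 : ℝ) ≤ ∏ p ∈ q.primeFactors, (1 + 30 / Real.sqrt p) :=
    Finset.prod_le_prod (fun _ _ => zero_le_one) fun p _ => by
      have : 0 ≤ 30 / Real.sqrt p := by positivity
      linarith
  rwa [Finset.prod_const_one] at h

theorem sum_le_Ef (s : Finset ℕ) : ∑ p ∈ s, 30 / Real.sqrt p ≤
    ∏ p ∈ s, (1 + 30 / Real.sqrt p) := by
  classical
  have key : ∀ s : Finset ℕ, 1 + ∑ p ∈ s, 30 / Real.sqrt p ≤
      ∏ p ∈ s, (1 + 30 / Real.sqrt p) := by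
    intro s
    induction s using Finset.induction_on with
    | empty => simp
    | insert a s ha ih =>
      rw [Finset.sum_insert ha, Finset.prod_insert ha]
      have h1 : 0 ≤ 30 / Real.sqrt a := by positivity
      have h2 : 0 ≤ ∑ p ∈ s, 30 / Real.sqrt p := Finset.sum_nonneg fun p _ => by positivity
      nlinarith
  linarith [key s]

theorem Ef_mul {q p : ℕ} (hq : q ≠ 0) (hp : p.Prime) (hpq : ¬ p ∣ q) :
    Ef (q * p) ≤ 31 * Ef q := by
  have hc : Nat.Coprime q p := ((Nat.Prime.coprime_iff_not_dvd hp).2 hpq).symm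
  unfold Ef
  rw [hc.primeFactors_mul, Finset.prod_union hc.disjoint_primeFactors, Nat.Prime.primeFactors hp,
    Finset.prod_singleton, mul_comm]
  refine mul_le_mul_of_nonneg_right ?_ (Finset.prod_nonneg fun p _ => by positivity)
  have h1 : (1 : ℝ) ≤ Real.sqrt p := by
    rw [Real.one_le_sqrt]
    exact_mod_cast hp.one_lt.le
  have h2 : 30 / Real.sqrt p ≤ 30 := by
    rw [div_le_iff₀ (by linarith)]
    linarith
  linarith

/-- the sum over the primes dividing `q` -/
theorem sum_dvd {q : ℕ} (hq : q ≠ 0) (s : Finset ℕ) :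
    ∑ p ∈ s.filter (fun p => p.Prime ∧ p ∣ q), Real.log p ^ 2 / p ≤ Ef q := by
  have h1 : s.filter (fun p => p.Prime ∧ p ∣ q) ⊆ q.primeFactors := by
    intro p hp
    rw [Finset.mem_filter] at hp
    exact Nat.mem_primeFactors.2 ⟨hp.2.1, hp.2.2, hq⟩
  refine (Finset.sum_le_sum_of_subset_of_nonneg h1 fun p _ _ => by positivity).trans ?_
  refine le_trans (Finset.sum_le_sum fun p hp => ?_) (sum_le_Ef q.primeFactors)
  have hp0 : (0 : ℝ) < p := by exact_mod_cast (Nat.prime_of_mem_primeFactors hp).pos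
  have hs : 0 < Real.sqrt p := Real.sqrt_pos.2 hp0
  rw [div_le_div_iff₀ hp0 hs]
  have h2 := log_sq_le (p := p)
  have h3 : Real.sqrt p * Real.sqrt p = p := Real.mul_self_sqrt hp0.le
  nlinarith

/-- the sum of `log² p / p²` -/
theorem sum_sq (s : Finset ℕ) : ∑ p ∈ s, Real.log p ^ 2 / p * (1 / p) ≤
    16 * ∑' n : ℕ, (n : ℝ) ^ (-(3 / 2) : ℝ) := by
  have hsum : Summable fun n : ℕ => (n : ℝ) ^ (-(3 / 2) : ℝ) :=
    Real.summable_nat_rpow.2 (by norm_num)
  have h1 : ∑ p ∈ s, Real.log p ^ 2 / p * (1 / p) ≤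
      ∑ p ∈ s, 16 * (p : ℝ) ^ (-(3 / 2) : ℝ) := by
    refine Finset.sum_le_sum fun p _ => ?_
    rcases Nat.eq_zero_or_pos p with rfl | hp
    · simp
    · have hp0 : (0 : ℝ) < p := by exact_mod_cast hp
      have h2 := log_sq_le (p := p)
      have h3 : (p : ℝ) ^ (-(3 / 2) : ℝ) = Real.sqrt p * (1 / p * (1 / p)) := by
        rw [Real.sqrt_eq_rpow, one_div (p : ℝ), ← Real.rpow_neg_one, ← Real.rpow_add hp0,
          ← Real.rpow_add hp0]
        norm_num
      rw [h3]
      have h4 : Real.log p ^ 2 / p * (1 / p) = Real.log p ^ 2 * (1 / p * (1 / p)) := by ring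
      rw [h4]
      calc Real.log p ^ 2 * (1 / p * (1 / p)) ≤ 16 * Real.sqrt p * (1 / p * (1 / p)) :=
            mul_le_mul_of_nonneg_right h2 (by positivity)
        _ = _ := by ring
  refine h1.trans ?_
  rw [← Finset.mul_sum]
  exact mul_le_mul_of_nonneg_left (hsum.sum_le_tsum _ fun n _ => by positivity) (by norm_num)

theorem pf_VS (hBK : T_BK) (hMER : T_MER) (hHQ : T_HQ) : T_VS := by
  intro k hk
  obtain ⟨CB, hCB, hB⟩ := hBK k hk
  obtain ⟨CM, hCM, hM⟩ := hMER (k - 2)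
  obtain ⟨C0, hC0, hM0⟩ := hMER 0
  obtain ⟨CH, hCH, hH⟩ := hHQ
  set S := ∑' n : ℕ, (n : ℝ) ^ (-(3 / 2) : ℝ) with hS
  have hS0 : 0 ≤ S := tsum_nonneg fun n => by positivity
  have hk1 : (5 : ℝ) ≤ k := by exact_mod_cast hk
  set κ : ℝ := k * (k - 1) with hκ
  have hκ0 : 0 ≤ κ := mul_nonneg (by linarith) (by linarith)
  refine ⟨62 * CB * (C0 + 1) + 2 * κ * (62 * CH * (16 * S)) + 2 * κ * CH +
    2 * κ * CH * CM + 1, by positivity, fun q y hq1 h2 hy => ?_⟩
  have hq0 : q ≠ 0 := by omega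
  obtain ⟨hHpos, hHle, hHmul, -⟩ := hH q hq1 h2
  have hU : 0 ≤ Real.log y := Real.log_nonneg hy
  set U := Real.log y with hUd
  set X := 1 + U with hX
  have hX1 : 1 ≤ X := by linarith
  have hE1 := Ef_one_le q
  set E := Ef q with hEd
  set s := (Finset.Icc 1 ⌊y⌋₊).filter Nat.Prime with hs
  have hsp : ∀ p ∈ s, p.Prime ∧ (p : ℝ) ≤ y := by
    intro p hp
    rw [hs, Finset.mem_filter, Finset.mem_Icc] at hp
    exact ⟨hp.2, (Nat.le_floor_iff (by linarith)).1 hp.1.2⟩
  have hlogp : ∀ p ∈ s, 0 ≤ Real.log (y / p) ∧ Real.log (y / p) ≤ U ∧ 1 ≤ y / p := by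
    intro p hp
    obtain ⟨h3, h4⟩ := hsp p hp
    have hp0 : (0 : ℝ) < p := by exact_mod_cast h3.pos
    have h5 : 1 ≤ y / p := by
      rw [le_div_iff₀ hp0]
      linarith
    refine ⟨Real.log_nonneg h5, ?_, h5⟩
    refine Real.log_le_log (by linarith) ?_
    rw [div_le_iff₀ hp0]
    have : (1 : ℝ) ≤ p := by exact_mod_cast h3.one_lt.le
    nlinarith
  -- the sums
  have hk2 : ((k - 2 : ℕ) : ℝ) = k - 2 := by
    rw [Nat.cast_sub (by omega)]
    norm_num
  have hMk := hM y hy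
  have hM00 := hM0 y hy
  have e3 : (((k - 2 : ℕ) : ℝ) + 1) * (((k - 2 : ℕ) : ℝ) + 2) = κ := by
    rw [hk2, hκ]
    ring
  rw [e3, Nat.sub_add_cancel (by omega : 2 ≤ k), ← hs, ← hUd,
    show k - 2 + 1 = k - 1 by omega] at hMk
  simp only [pow_zero, mul_one, Nat.cast_zero, zero_add, one_mul, pow_one] at hM00
  rw [← hs, ← hUd] at hM00
  have hW : ∑ p ∈ s, Real.log p ^ 2 / p ≤ (C0 + 1) * X ^ 2 := by
    rw [abs_le] at hM00
    have h3 := hM00.2
    have h4 : U ^ 2 / 2 ≤ X ^ 2 := by nlinarith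
    have h5 : C0 * (1 + U) ≤ C0 * X ^ 2 := by
      refine mul_le_mul_of_nonneg_left ?_ hC0.le
      nlinarith
    linarith
  rw [sum_ve q k hy, ← hs]
  -- the errors
  let D : ℕ → ℝ := fun p => if p ∣ q then 0 else 2 * (Real.log p ^ 2 / p)
  have hD0 : ∀ p, 0 ≤ D p ∧ D p ≤ 2 * (Real.log p ^ 2 / p) := by
    intro p
    simp only [D]
    split_ifs
    · exact ⟨le_rfl, by positivity⟩
    · exact ⟨by positivity, le_rfl⟩
  have hErr1 : |∑ p ∈ s, D p * (Bk k (q * p) (y / p) -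
      Hq (q * p) * κ * Real.log (y / p) ^ (k - 2))| ≤ 62 * CB * (C0 + 1) * (E * X ^ (k - 1)) := by
    refine (Finset.abs_sum_le_sum_abs _ _).trans ?_
    have h3 : ∀ p ∈ s, |D p * (Bk k (q * p) (y / p) -
        Hq (q * p) * κ * Real.log (y / p) ^ (k - 2))| ≤
        Real.log p ^ 2 / p * (62 * CB * (E * X ^ (k - 3))) := by
      intro p hp
      obtain ⟨h4, h5⟩ := hsp p hp
      obtain ⟨h6, h7, h8⟩ := hlogp p hp
      by_cases hpq : p ∣ q
      · have : D p = 0 := if_pos hpq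
        rw [this, zero_mul, abs_zero]
        positivity
      · have h9 := hB (q * p) (y / p) (Nat.mul_pos (by omega) h4.pos)
          (Dvd.dvd.mul_right h2 p) h8
        have h10 := Ef_mul hq0 h4 hpq
        rw [abs_mul, abs_of_nonneg (hD0 p).1]
        have h11 : CB * Ef (q * p) * (1 + Real.log (y / p)) ^ (k - 3) ≤
            CB * (31 * E) * X ^ (k - 3) := by
          refine mul_le_mul (mul_le_mul_of_nonneg_left h10 hCB.le)
            (pow_le_pow_left₀ (by linarith) (by linarith) _) (by positivity) (by positivity)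
        calc D p * |Bk k (q * p) (y / p) - Hq (q * p) * κ * Real.log (y / p) ^ (k - 2)| ≤
            (2 * (Real.log p ^ 2 / p)) * (CB * (31 * E) * X ^ (k - 3)) :=
              mul_le_mul (hD0 p).2 (h9.trans h11) (abs_nonneg _) (by positivity)
          _ = _ := by ring
    refine (Finset.sum_le_sum h3).trans ?_
    rw [← Finset.sum_mul]
    have h4 : X ^ (k - 1) = X ^ 2 * X ^ (k - 3) := by
      rw [← pow_add]
      congr 1
      omega
    calc (∑ p ∈ s, Real.log p ^ 2 / p) * (62 * CB * (E * X ^ (k - 3))) ≤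
        ((C0 + 1) * X ^ 2) * (62 * CB * (E * X ^ (k - 3))) :=
          mul_le_mul_of_nonneg_right hW (by positivity)
      _ = _ := by rw [h4]; ring
  have hErr2 : |∑ p ∈ s, D p * ((Hq (q * p) - Hq q) * κ * Real.log (y / p) ^ (k - 2))| ≤
      2 * κ * (62 * CH * (16 * S)) * (E * X ^ (k - 1)) := by
    refine (Finset.abs_sum_le_sum_abs _ _).trans ?_
    have h3 : ∀ p ∈ s, |D p * ((Hq (q * p) - Hq q) * κ * Real.log (y / p) ^ (k - 2))| ≤
        Real.log p ^ 2 / p * (1 / p) * (2 * κ * (62 * CH) * (E * X ^ (k - 1))) := by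
      intro p hp
      obtain ⟨h4, h5⟩ := hsp p hp
      obtain ⟨h6, h7, h8⟩ := hlogp p hp
      have hp0 : (0 : ℝ) < p := by exact_mod_cast h4.pos
      by_cases hpq : p ∣ q
      · have : D p = 0 := if_pos hpq
        rw [this, zero_mul, abs_zero]
        positivity
      · obtain ⟨g1, g2, -⟩ := hH (q * p) (Nat.mul_pos (by omega) h4.pos)
          (Dvd.dvd.mul_right h2 p)
        have h9 := hHmul p h4 hpq
        have h10 := Ef_mul hq0 h4 hpq
        have h11 : Hq (q * p) - Hq q = Hq (q * p) * (2 / p) := by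
          rw [← h9]
          ring
        have h12 : Hq (q * p) ≤ CH * (31 * E) :=
          g2.trans (mul_le_mul_of_nonneg_left h10 hCH.le)
        rw [h11, abs_of_nonneg (mul_nonneg (hD0 p).1 (by positivity))]
        have h13 : Real.log (y / p) ^ (k - 2) ≤ X ^ (k - 1) := by
          calc Real.log (y / p) ^ (k - 2) ≤ X ^ (k - 2) :=
                pow_le_pow_left₀ h6 (by linarith) _
            _ ≤ X ^ (k - 1) := pow_le_pow_right₀ hX1 (by omega)
        calc D p * (Hq (q * p) * (2 / p) * κ * Real.log (y / p) ^ (k - 2)) ≤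
            (2 * (Real.log p ^ 2 / p)) * (CH * (31 * E) * (2 / p) * κ * X ^ (k - 1)) := by
              refine mul_le_mul (hD0 p).2 ?_ (by positivity) (by positivity)
              refine mul_le_mul ?_ h13 (by positivity) (by positivity)
              refine mul_le_mul_of_nonneg_right ?_ hκ0
              exact mul_le_mul_of_nonneg_right h12 (by positivity)
          _ = _ := by ring
    refine (Finset.sum_le_sum h3).trans ?_
    rw [← Finset.sum_mul]
    calc (∑ p ∈ s, Real.log p ^ 2 / p * (1 / p)) * (2 * κ * (62 * CH) * (E * X ^ (k - 1))) ≤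
        (16 * S) * (2 * κ * (62 * CH) * (E * X ^ (k - 1))) :=
          mul_le_mul_of_nonneg_right (sum_sq s) (by positivity)
      _ = _ := by ring
  have hErr3 : |∑ p ∈ s, (2 * (Real.log p ^ 2 / p) - D p) *
      (Hq q * κ * Real.log (y / p) ^ (k - 2))| ≤ 2 * κ * CH * (E ^ 2 * X ^ (k - 1)) := by
    have h3 : ∀ p ∈ s, (2 * (Real.log p ^ 2 / p) - D p) *
        (Hq q * κ * Real.log (y / p) ^ (k - 2)) ≤
        (if p ∣ q then Real.log p ^ 2 / p else 0) * (2 * (CH * E) * κ * X ^ (k - 1)) := by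
      intro p hp
      obtain ⟨h6, h7, h8⟩ := hlogp p hp
      by_cases hpq : p ∣ q
      · have : D p = 0 := if_pos hpq
        rw [this, if_pos hpq, sub_zero]
        have h13 : Real.log (y / p) ^ (k - 2) ≤ X ^ (k - 1) := by
          calc Real.log (y / p) ^ (k - 2) ≤ X ^ (k - 2) :=
                pow_le_pow_left₀ h6 (by linarith) _
            _ ≤ X ^ (k - 1) := pow_le_pow_right₀ hX1 (by omega)
        calc 2 * (Real.log p ^ 2 / p) * (Hq q * κ * Real.log (y / p) ^ (k - 2)) ≤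
            2 * (Real.log p ^ 2 / p) * (CH * E * κ * X ^ (k - 1)) := by
              refine mul_le_mul_of_nonneg_left ?_ (by positivity)
              refine mul_le_mul ?_ h13 (by positivity) (by positivity)
              exact mul_le_mul_of_nonneg_right hHle hκ0
          _ = _ := by ring
      · have : D p = 2 * (Real.log p ^ 2 / p) := if_neg hpq
        rw [this, if_neg hpq, sub_self, zero_mul, zero_mul]
    have h3' : ∀ p ∈ s, 0 ≤ (2 * (Real.log p ^ 2 / p) - D p) *
        (Hq q * κ * Real.log (y / p) ^ (k - 2)) := fun p hp =>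
      mul_nonneg (sub_nonneg.2 (hD0 p).2) (mul_nonneg (mul_nonneg hHpos.le hκ0)
        (pow_nonneg (hlogp p hp).1 _))
    rw [abs_of_nonneg (Finset.sum_nonneg h3')]
    refine (Finset.sum_le_sum h3).trans ?_
    rw [← Finset.sum_mul]
    have h4 : ∑ p ∈ s, (if p ∣ q then Real.log p ^ 2 / p else 0) ≤ E := by
      rw [← Finset.sum_filter, hs, Finset.filter_filter]
      exact sum_dvd hq0 _
    calc (∑ p ∈ s, if p ∣ q then Real.log p ^ 2 / p else 0) * (2 * (CH * E) * κ * X ^ (k - 1)) ≤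
        E * (2 * (CH * E) * κ * X ^ (k - 1)) := mul_le_mul_of_nonneg_right h4 (by positivity)
      _ = _ := by ring
  have hErr4 : |2 * (Hq q * κ) * (∑ p ∈ s, Real.log p ^ 2 / p * Real.log (y / p) ^ (k - 2) -
      U ^ k / κ)| ≤ 2 * κ * CH * CM * (E * X ^ (k - 1)) := by
    rw [abs_mul, abs_of_nonneg (by positivity)]
    calc 2 * (Hq q * κ) * |∑ p ∈ s, Real.log p ^ 2 / p * Real.log (y / p) ^ (k - 2) -
        U ^ k / κ| ≤ 2 * (CH * E * κ) * (CM * X ^ (k - 1)) := by
          refine mul_le_mul ?_ hMk (abs_nonneg _) (by positivity)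
          exact mul_le_mul_of_nonneg_left (mul_le_mul_of_nonneg_right hHle hκ0) (by norm_num)
      _ = _ := by ring
  have hκ1 : κ ≠ 0 := by
    rw [hκ]
    exact mul_ne_zero (by linarith) (by linarith)
  have hid : -∑ p ∈ s, (if p ∣ q then 0 else 2 * (Real.log p ^ 2 / p)) *
      Bk k (q * p) (y / p) + 2 * Hq q * U ^ k =
      -(∑ p ∈ s, D p * (Bk k (q * p) (y / p) -
        Hq (q * p) * κ * Real.log (y / p) ^ (k - 2))) -
      ∑ p ∈ s, D p * ((Hq (q * p) - Hq q) * κ * Real.log (y / p) ^ (k - 2)) +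
      ∑ p ∈ s, (2 * (Real.log p ^ 2 / p) - D p) * (Hq q * κ * Real.log (y / p) ^ (k - 2)) -
      2 * (Hq q * κ) * (∑ p ∈ s, Real.log p ^ 2 / p * Real.log (y / p) ^ (k - 2) -
        U ^ k / κ) := by
    have e4 : 2 * (Hq q * κ) * (∑ p ∈ s, Real.log p ^ 2 / p * Real.log (y / p) ^ (k - 2) -
        U ^ k / κ) = ∑ p ∈ s, 2 * (Hq q * κ) * (Real.log p ^ 2 / p *
          Real.log (y / p) ^ (k - 2)) - 2 * Hq q * U ^ k := by
      rw [mul_sub, Finset.mul_sum]
      congr 1
      field_simp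
    rw [e4]
    have e5 : -∑ p ∈ s, (if p ∣ q then 0 else 2 * (Real.log p ^ 2 / p)) *
        Bk k (q * p) (y / p) =
        -(∑ p ∈ s, D p * (Bk k (q * p) (y / p) -
          Hq (q * p) * κ * Real.log (y / p) ^ (k - 2))) -
        ∑ p ∈ s, D p * ((Hq (q * p) - Hq q) * κ * Real.log (y / p) ^ (k - 2)) +
        ∑ p ∈ s, (2 * (Real.log p ^ 2 / p) - D p) *
          (Hq q * κ * Real.log (y / p) ^ (k - 2)) -
        ∑ p ∈ s, 2 * (Hq q * κ) * (Real.log p ^ 2 / p * Real.log (y / p) ^ (k - 2)) := by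
      rw [← Finset.sum_neg_distrib, ← Finset.sum_neg_distrib, ← Finset.sum_sub_distrib,
        ← Finset.sum_add_distrib, ← Finset.sum_sub_distrib]
      refine Finset.sum_congr rfl fun p _ => ?_
      simp only [D]
      ring
    rw [e5]
    ring
  have hEE : E * X ^ (k - 1) ≤ E ^ 2 * X ^ (k - 1) := by
    refine mul_le_mul_of_nonneg_right ?_ (by positivity)
    nlinarith
  rw [hid]
  have hfin : ∀ a b c d : ℝ, |-a - b + c - d| ≤ |a| + |b| + |c| + |d| := by
    intro a b c d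
    have h1 := abs_sub (-a - b + c) d
    have h2 := abs_add_le (-a - b) c
    have h3 := abs_sub (-a) b
    rw [abs_neg] at h3
    linarith
  refine (hfin _ _ _ _).trans ?_
  have m1 : 62 * CB * (C0 + 1) * (E * X ^ (k - 1)) ≤
      62 * CB * (C0 + 1) * (E ^ 2 * X ^ (k - 1)) := mul_le_mul_of_nonneg_left hEE (by positivity)
  have m2 : 2 * κ * (62 * CH * (16 * S)) * (E * X ^ (k - 1)) ≤
      2 * κ * (62 * CH * (16 * S)) * (E ^ 2 * X ^ (k - 1)) :=
    mul_le_mul_of_nonneg_left hEE (by positivity)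
  have m4 : 2 * κ * CH * CM * (E * X ^ (k - 1)) ≤ 2 * κ * CH * CM * (E ^ 2 * X ^ (k - 1)) :=
    mul_le_mul_of_nonneg_left hEE (by positivity)
  have m5 : 0 ≤ E ^ 2 * X ^ (k - 1) := by positivity
  have e6 : (62 * CB * (C0 + 1) + 2 * κ * (62 * CH * (16 * S)) + 2 * κ * CH +
      2 * κ * CH * CM + 1) * E ^ 2 * X ^ (k - 1) =
      62 * CB * (C0 + 1) * (E ^ 2 * X ^ (k - 1)) +
      2 * κ * (62 * CH * (16 * S)) * (E ^ 2 * X ^ (k - 1)) +
      2 * κ * CH * (E ^ 2 * X ^ (k - 1)) + 2 * κ * CH * CM * (E ^ 2 * X ^ (k - 1)) +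
      E ^ 2 * X ^ (k - 1) := by ring
  rw [e6]
  linarith

end Pool.Agent.H60.CN
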